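import Pool.Agent.Y578.Spl.Since

/-!
# Splay trees against arbitrary reference trees: the greatest depth since the last request

`Tr`, `keys`, `IsBST`, `dep`, `splay`, `costSplay` are those of `Pool.Agent.H581R2.SplayDef`.

Let `T 0, T 1, …` be any binary search trees with the same keys, where `T 0` is the initial tree of
the splay tree and `T s` is the tree of the reference algorithm before the request `x s`. There is
no relation between consecutive trees: the reference algorithm may rebuild its tree at every step
for free. Splaying `x 0, …, x (m - 1)` costs at most the sum of `7 + 15 D i`, where `D i` is the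
greatest depth of the key `x i` in the trees `T s` since the last request of `x i` (since the start if
there is none). There is no additive term.

Consequently splaying is within a factor `22 K` of the search cost of every reference algorithm in
whose trees no key is ever deeper than `K (1 + d)`, where `d` is its depth at its next request.
-/

set_option autoImplicit false
open Finset

namespace Pool.Agent.Results.MP_c42954_lc.DepthSinceLastRequest

open Pool.Agent.H581R2.Splay Pool.Agent.Y578.Spl

theorem since_le {T : ℕ → Tr} {x : ℕ → ℕ} {i D : ℕ}
    (h : ∀ s ≤ i, (∀ j, s ≤ j → j < i → x j ≠ x i) → dep (x i) (T s) ≤ D) :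
    since T x i (x i) ≤ D := by
  unfold since
  refine Finset.sup_le fun s hs => ?_
  rw [Finset.mem_filter, Finset.mem_range] at hs
  exact h s (by omega) fun j h1 h2 => hs.2 j h2 h1

/-- Splaying costs at most the sum of `7 + 15 D i`, where `D i` is the greatest depth of the requested
key in arbitrary reference trees since its last request; and at most `22 K` times the search cost of
the reference algorithm if no key is ever deeper than `K (1 + d)`, `d` its depth at its next
request. -/
theorem result (T : ℕ → Tr) (x : ℕ → ℕ) (m : ℕ) (hb : IsBST (T 0))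
    (hk : ∀ s, keys (T s) = keys (T 0)) (hx : ∀ i < m, x i ∈ keys (T 0)) :
    (∀ D : ℕ → ℕ,
      (∀ i < m, ∀ s ≤ i, (∀ j, s ≤ j → j < i → x j ≠ x i) → dep (x i) (T s) ≤ D i) →
      costSplay (T 0) ((List.range m).map x) ≤ ∑ i ∈ range m, (7 + 15 * D i)) ∧
    (∀ K : ℕ, 1 ≤ K →
      (∀ i < m, ∀ s ≤ i, (∀ j, s ≤ j → j < i → x j ≠ x i) →
        dep (x i) (T s) ≤ K * (1 + dep (x i) (T i))) →
      costSplay (T 0) ((List.range m).map x) ≤
        22 * K * ∑ i ∈ range m, (1 + dep (x i) (T i))) := by
  have key : ∀ D : ℕ → ℕ,
      (∀ i < m, ∀ s ≤ i, (∀ j, s ≤ j → j < i → x j ≠ x i) → dep (x i) (T s) ≤ D i) →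
      costSplay (T 0) ((List.range m).map x) ≤ ∑ i ∈ range m, (7 + 15 * D i) := by
    intro D hD
    refine le_trans (cost_since hb hk hx) (Finset.sum_le_sum fun i hi => ?_)
    have := since_le (hD i (Finset.mem_range.1 hi))
    omega
  refine ⟨key, fun K hK hD => ?_⟩
  refine le_trans (key _ hD) ?_
  rw [Finset.mul_sum]
  refine Finset.sum_le_sum fun i _ => ?_
  have h1 : K ≤ K * (1 + dep (x i) (T i)) := Nat.le_mul_of_pos_right _ (by omega)
  nlinarith

end Pool.Agent.Results.MP_c42954_lc.DepthSinceLastRequest
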